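import Pool.Agent.Y609.RI.Tr
import Pool.Agent.Y609.RI.Lcs
import Pool.Agent.H615R3.InvTop
import Pool.Agent.Helper25R3.Star

/-!
# Recurrence of the inverse of an invertible operator: on which spaces?

Real or complex scalars. For the six properties of the question:

* frequent and `𝒰`-frequent recurrence do not pass to the inverse, and there are counterexamples on
  every separable Banach space and, more generally, on every separable locally convex space (in
  particular every separable Fréchet space) which contains an isomorphic copy of `c_0`; and on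
  every topological vector space, separable or not, with a complemented subspace isomorphic to
  `c_0`. For instance on `C (K)` for each infinite compact metric space `K`. All recurrent vectors
  of the inverse are in a closed subspace `ker r` with `X = ker r ⊕ c_0`; on `X = c_0` the inverse
  has no nonzero recurrent vector;
* reiterative, uniform, `IP*`- and `Δ*`-recurrence pass to the inverse, on all spaces.

The second part and the operators on `c_0` are those of the starting result `AllSix`, where the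
first part is proved for one Banach space only. Here: if `X = Z ⊕ c_0` and `T` is the operator on
`c_0` then `id ⊕ T` is the required operator on `X`. A copy of `c_0` in a separable locally convex
space is complemented by Sobczyk's theorem (it is proved in `Pool.Agent.Y609.RI.Sob2` for separable
normed spaces, complete or not, and in `Pool.Agent.Y609.RI.Lcs` in general).
-/

set_option autoImplicit false

open Filter Topology
open scoped ZeroAtInfty

namespace Pool.Agent.Results.MP_3e9a14_an.SpacesContainingC0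

open Pool.Agent.H615R3 Pool.Agent.Helper25R3.Star

universe v

/-- `x` is recurrent for `T` with respect to the family `R` of sets of positive integers: every
return set `{n ≥ 1 : T^n x ∈ U}`, `U` a neighbourhood of `x`, is in `R`. -/
def Rec (R : Set ℕ → Prop) {X : Type*} [TopologicalSpace X] (T : X → X) (x : X) : Prop :=
  ∀ U ∈ 𝓝 x, R (retSet T x U)

/-- `T` has the recurrence property given by `R`: the recurrent vectors are dense. -/
def HasRec (R : Set ℕ → Prop) {X : Type*} [TopologicalSpace X] (T : X → X) : Prop :=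
  Dense {x | Rec R T x}

/-- Sets of positive lower density (frequent recurrence). -/
def LowerPos (A : Set ℕ) : Prop := 0 < lowerDensity A

/-- Sets of positive upper density (`𝒰`-frequent recurrence). -/
def UpperPos (A : Set ℕ) : Prop := 0 < upperDensity A

/-- Sets of positive upper Banach density (reiterative recurrence). -/
def BanachPos (A : Set ℕ) : Prop := 0 < upperBanachDensity A

/-- There is an invertible operator `T` on `X` with the property `R` such that the inverse does not
have the property `R`; all recurrent vectors of the inverse are in the kernel of `r`. -/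
def FailsOn {𝕜 : Type} [RCLike 𝕜] (R : Set ℕ → Prop) {X : Type} [AddCommGroup X] [Module 𝕜 X]
    [TopologicalSpace X] (r : X →L[𝕜] C₀(ℕ, 𝕜)) : Prop :=
  ∃ T : X ≃L[𝕜] X, HasRec R T ∧ ¬ HasRec R T.symm ∧ ∀ x, Rec R T.symm x → r x = 0

/-- The property `R` passes to inverses of invertible operators on complete metrizable
topological vector spaces (in particular on Fréchet spaces). -/
def Passes (𝕜 : Type) [RCLike 𝕜] (R : Set ℕ → Prop) : Prop :=
  ∀ (X : Type v) [AddCommGroup X] [Module 𝕜 X] [UniformSpace X] [IsUniformAddGroup X]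
    [ContinuousSMul 𝕜 X] [CompleteSpace X] [T2Space X] [(uniformity X).IsCountablyGenerated]
    (T : X ≃L[𝕜] X), HasRec R T → HasRec R T.symm

/-- An invertible operator on a Hausdorff topological vector space and its inverse have the same
`R`-recurrent vectors. -/
def Same (𝕜 : Type) [RCLike 𝕜] (R : Set ℕ → Prop) : Prop :=
  ∀ (X : Type v) [AddCommGroup X] [Module 𝕜 X] [TopologicalSpace X] [IsTopologicalAddGroup X]
    [ContinuousSMul 𝕜 X] [T2Space X] (T : X ≃L[𝕜] X) (x : X), Rec R T x ↔ Rec R T.symm x

lemma Same.passes {𝕜 : Type} [RCLike 𝕜] {R : Set ℕ → Prop} (h : Same.{v} 𝕜 R) :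
    Passes.{v} 𝕜 R := by
  intro X _ _ _ _ _ _ _ _ T hT
  exact hT.mono fun x hx => (h X T x).1 hx

lemma failsOn_of {𝕜 : Type} [RCLike 𝕜] {R : Set ℕ → Prop} {X : Type} [AddCommGroup X]
    [Module 𝕜 X] [TopologicalSpace X] (i : C₀(ℕ, 𝕜) →L[𝕜] X) (r : X →L[𝕜] C₀(ℕ, 𝕜))
    (hir : ∀ y, r (i y) = y)
    (h : ∃ T : X ≃L[𝕜] X, HasRec R T ∧ ∀ x, Rec R T.symm x → r x = 0) :
    FailsOn R r := by
  obtain ⟨T, h1, h2⟩ := h
  refine ⟨T, h1, fun h3 => ?_, h2⟩
  have hcl : IsClosed {x : X | r x = 0} := isClosed_eq r.continuous continuous_const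
  have h4 : ∀ x, r x = 0 := fun x => closure_minimal (fun x hx => h2 x hx) hcl (h3 x)
  have h5 : Pool.Agent.Y609.WS.c0ι 𝕜 𝕜 0 (1 : 𝕜) = 0 := by
    rw [← hir (Pool.Agent.Y609.WS.c0ι 𝕜 𝕜 0 (1 : 𝕜)), h4]
  have h6 : (Pool.Agent.Y609.WS.c0ι 𝕜 𝕜 0 (1 : 𝕜)) 0 = 1 := by
    show (Pi.single 0 (1 : 𝕜) : ℕ → 𝕜) 0 = 1
    rw [Pi.single_eq_same]
  rw [h5] at h6
  exact zero_ne_one h6

/-- Let `𝕜` be `ℝ` or `ℂ`. Frequent and `𝒰`-frequent recurrence do not pass to the inverse on any
topological vector space with a complemented copy of `c_0` and on any separable locally convex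
space which contains a copy of `c_0`; reiterative, uniform, `IP*`- and `Δ*`-recurrence pass to the
inverse, and for the last three the recurrent vectors of an invertible operator and of its inverse
coincide. -/
theorem result (𝕜 : Type) [RCLike 𝕜] :
    (∀ (X : Type) [AddCommGroup X] [Module 𝕜 X] [TopologicalSpace X] [IsTopologicalAddGroup X]
      (i : C₀(ℕ, 𝕜) →L[𝕜] X) (r : X →L[𝕜] C₀(ℕ, 𝕜)), (∀ y, r (i y) = y) →
        FailsOn LowerPos r ∧ FailsOn UpperPos r) ∧
    (∀ (X : Type) [AddCommGroup X] [Module 𝕜 X] [TopologicalSpace X] [IsTopologicalAddGroup X]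
      [TopologicalSpace.SeparableSpace X] (i : C₀(ℕ, 𝕜) →L[𝕜] X) (q : Seminorm 𝕜 X) (δ : ℝ),
      Continuous q → 0 < δ → (∀ y, δ * ‖y‖ ≤ q (i y)) →
        ∃ r : X →L[𝕜] C₀(ℕ, 𝕜), (∀ y, r (i y) = y) ∧ FailsOn LowerPos r ∧ FailsOn UpperPos r) ∧
    Passes.{v} 𝕜 BanachPos ∧ Passes.{v} 𝕜 Syndetic ∧ Passes.{v} 𝕜 IPStar ∧
    Passes.{v} 𝕜 DeltaStar ∧
    Same.{v} 𝕜 Syndetic ∧ Same.{v} 𝕜 IPStar ∧ Same.{v} 𝕜 DeltaStar := by
  have s1 : Same.{v} 𝕜 Syndetic := fun X _ _ _ _ _ _ T x =>
    ⟨fun hx => IsURec.inv T.symm.continuous T.symm_apply_apply hx,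
      fun hx => IsURec.inv T.continuous T.apply_symm_apply hx⟩
  have s2 : Same.{v} 𝕜 IPStar := fun X _ _ _ _ _ _ T x =>
    ⟨fun hx => IsIPRec.inv T.toHomeomorph hx, fun hx => IsIPRec.inv T.symm.toHomeomorph hx⟩
  have s3 : Same.{v} 𝕜 DeltaStar := fun X _ _ _ _ _ _ T x =>
    ⟨fun hx => IsDeltaRec.inv T.symm.continuous T.symm_apply_apply hx,
      fun hx => IsDeltaRec.inv T.continuous T.apply_symm_apply hx⟩
  have c1 : ∀ (X : Type) [AddCommGroup X] [Module 𝕜 X] [TopologicalSpace X]
      [IsTopologicalAddGroup X] (i : C₀(ℕ, 𝕜) →L[𝕜] X) (r : X →L[𝕜] C₀(ℕ, 𝕜)),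
      (∀ y, r (i y) = y) → FailsOn LowerPos r ∧ FailsOn UpperPos r := by
    intro X _ _ _ _ i r hir
    obtain ⟨h1, h2⟩ := Pool.Agent.Y609.RI.fails_compl i r hir
    exact ⟨failsOn_of i r hir h1, failsOn_of i r hir h2⟩
  refine ⟨c1, ?_, ?_, s1.passes, s2.passes, s3.passes, s1, s2, s3⟩
  · intro X _ _ _ _ _ i q δ hq hδ hi
    obtain ⟨r, hr⟩ := Pool.Agent.Y609.RI.sobczyk_lcs i q hq hδ hi
    exact ⟨r, hr, c1 X i r hr⟩
  · intro X _ _ _ _ _ _ _ _ T h
    have key0 : {x | Rec BanachPos T x} ⊆ closure {z | Rec BanachPos T.symm z} := fun x hx =>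
      IsRRec.inv_closure T.symm.continuous T.continuous T.symm_apply_apply T.apply_symm_apply hx
    have h2 : Dense (closure {z | Rec BanachPos T.symm z}) := h.mono key0
    exact dense_closure.1 h2

end Pool.Agent.Results.MP_3e9a14_an.SpacesContainingC0
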